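import Mathlib
import Pool.Agent.H19hemi.Tab

set_option autoImplicit false

namespace Pool.Agent.H19hemi

/-- incidence of the point `p` and the line `l` -/
def inc (p : Fin 280) (l : Fin 112) : Bool :=
  l.val == tl p 0 || l.val == tl p 1 || l.val == tl p 2 || l.val == tl p 3

/-- incidence as a proposition -/
def I (p : Fin 280) (l : Fin 112) : Prop := inc p l = true

instance (p : Fin 280) (l : Fin 112) : Decidable (I p l) := inferInstanceAs (Decidable (_ = true))

theorem lm_spec : ∀ (l : Fin 112) (p : Fin 280), Nat.testBit (lm l) p = inc p l := by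
  decide +kernel

theorem lm_lt : ∀ l : Fin 112, lm l < 2 ^ 280 := by decide +kernel

theorem card_line : ∀ l : Fin 112, (Finset.univ.filter (fun p : Fin 280 => inc p l = true)).card = 10 := by
  decide +kernel

theorem card_point : ∀ p : Fin 280, (Finset.univ.filter (fun l : Fin 112 => inc p l = true)).card = 4 := by
  decide +kernel

theorem meet_one : ∀ l m : Fin 112, l ≠ m → (lm l &&& lm m = 0 ∨
    lm l &&& lm m = 2 ^ (Nat.log2 (lm l &&& lm m))) := by
  decide +kernel

end Pool.Agent.H19hemi
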