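import Mathlib
import Pool.Agent.H19hemi.Check

set_option autoImplicit false

namespace Pool.Agent.H19hemi

theorem tl_lt : ∀ (p : Fin 280) (k : Fin 4), tl p k < 112 := by decide +kernel

/-- mask of the points collinear with `p` -/
def cm (p : ℕ) : ℕ := lm (tl p 0) ||| lm (tl p 1) ||| lm (tl p 2) ||| lm (tl p 3)

theorem proj_check : ∀ (p : Fin 280) (l : Fin 112), inc p l = true ∨
    (lm l &&& cm p = 2 ^ Nat.log2 (lm l &&& cm p) ∧ Nat.log2 (lm l &&& cm p) < 280) := by
  decide +kernel

theorem hemi_check : ∀ p : Fin 280,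
    (Finset.univ.filter (fun l : Fin 112 => l.val < 56 ∧ inc p l = true)).card = 2 := by
  decide +kernel

theorem gv_lt : ∀ l : Fin 112, gv l < 112 := by decide +kernel

theorem gv_lt' : ∀ l : Fin 112, l.val < 56 → gv l < 56 := by decide +kernel

theorem gv_gv : ∀ l : Fin 112, gv (gv l) = l := by decide +kernel

theorem g_adj : ∀ l m : Fin 112, l.val < 56 → m.val < 56 →
    (lm l &&& lm m = 0 ↔ lm (gv l) &&& lm (gv m) = 0) := by decide +kernel

theorem not_ind : ∀ y : Fin 112, ∃ l : Fin 112, l.val < 56 ∧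
    ¬ (lm l &&& lm 56 = 0 ↔ lm (gv l) &&& lm y = 0) := by decide +kernel

end Pool.Agent.H19hemi
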